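import Pool.Agent.H92.CR7

namespace Pool.Agent.Results.MP_ec7c5f_an.Croft
open MeasureTheory Set

theorem result : ∃ E : Set (EuclideanSpace ℝ (Fin 2)), NullMeasurableSet E volume ∧
    0 < volume E ∧ volume E < ⊤ ∧ ∀ δ > 0, ∃ t : ℝ, 0 < t ∧ t < δ ∧
      ∀ (u : EuclideanSpace ℝ (Fin 2)) (p : ℝ), ‖u‖ = 1 →
        μH[1] ({z | inner ℝ z u = p} ∩ E) ≠ ENNReal.ofReal t :=
  H92.CR.final

end Pool.Agent.Results.MP_ec7c5f_an.Croft
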